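import Mathlib
import Pool.Agent.Lib.helper29.Paperfold

namespace Pool.Agent.Results.MP_10145b_nt.WeightOne

open Finset Pool.Agent.Lib.H29.Paperfold

theorem result : ∃ f : ℕ → ℂ,
    (∀ n : ℕ, 1 ≤ n → ‖f n‖ = 1) ∧
    (∀ m n : ℕ, 1 ≤ m → 1 ≤ n → f (m * n) = f m * f n) ∧
    ∀ h₁ h₂ : ℕ, 1 ≤ h₁ → h₁ < h₂ → Odd (h₂ - h₁) →
      ∀ d n : ℕ, 1 ≤ d → 1 ≤ n →
        ‖∑ k ∈ Finset.Icc 1 n, f (d * (k + h₁)) * f (d * (k + h₂))‖ ≤ 2 * ((h₂ : ℝ) - h₁) := by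
  refine ⟨fun n => (pf n : ℂ), ?_, ?_, ?_⟩
  · intro n hn
    rcases pf_pm (n := n) (by omega) with h | h <;> simp [h]
  · intro m n _ _
    simp [pf_mul]
  · intro h₁ h₂ _ hlt hodd d n hd _
    obtain ⟨r, rfl⟩ : ∃ r, h₂ = h₁ + r := ⟨h₂ - h₁, by omega⟩
    have hr : r % 2 = 1 := by
      have := Nat.odd_iff.mp hodd
      simpa using this
    have key : ∑ k ∈ Finset.Icc 1 n, (pf (d * (k + h₁)) : ℂ) * (pf (d * (k + (h₁ + r))) : ℂ) =
        ((∑ k ∈ range n, pf (1 + h₁ + k) * pf (1 + h₁ + k + r) : ℤ) : ℂ) := by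
      rw [← Finset.Ico_add_one_right_eq_Icc, Finset.sum_Ico_eq_sum_range]
      push_cast
      refine sum_congr rfl (fun k _ => ?_)
      have h1 : 1 + k + h₁ = 1 + h₁ + k := by ring
      have h3 : 1 + k + (h₁ + r) = 1 + h₁ + k + r := by ring
      have h2 : (pf d : ℂ) * (pf d : ℂ) = 1 := by exact_mod_cast pf_sq (n := d) (by omega)
      rw [h1, h3, pf_mul, pf_mul]
      push_cast
      linear_combination ((pf (1 + h₁ + k) : ℂ) * (pf (1 + h₁ + k + r) : ℂ)) * h2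
    simp only
    rw [key, Complex.norm_intCast]
    have := corr_bound hr (1 + h₁) n
    push_cast
    rw [add_sub_cancel_left]
    exact_mod_cast this

end Pool.Agent.Results.MP_10145b_nt.WeightOne
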